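import Pool.Agent.H75.L.W662.CB.Stmts

/-!
Project CB, part B1: basic identities of the box.
-/

set_option autoImplicit false

open MeasureTheory Filter Topology Complex
open scoped InnerProductSpace ENNReal
open Pool.Agent.W662.CB

namespace Pool.Agent.W398.CB.B1

noncomputable section

variable {H K : Type} [NormedAddCommGroup H] [InnerProductSpace ℂ H] [CompleteSpace H]
  [NormedAddCommGroup K] [InnerProductSpace ℂ K] [CompleteSpace K]
  {U : ℝ → H →L[ℂ] H} {κ : (H →L[ℂ] H) →⋆ₐ[ℂ] (K →L[ℂ] K)} {V : ℝ → K →L[ℂ] K}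
  {J : H →L[ℂ] K} {E : ℂ → K →L[ℂ] K} {T δ : ℝ}

theorem star_inner_right (A : H →L[ℂ] H) (x y : H) : ⟪x, A y⟫_ℂ = ⟪star A x, y⟫_ℂ := by
  rw [ContinuousLinearMap.star_eq_adjoint, ContinuousLinearMap.adjoint_inner_left]

theorem star_E_real (hB : BoxP U κ V J E T δ) (t : ℝ) :
    star (E (t : ℂ)) = E ((-t : ℝ) : ℂ) := by
  rw [hB.E_star, Complex.conj_ofReal, ← Complex.ofReal_neg]

theorem J_U (hB : BoxP U κ V J E T δ) (t : ℝ) (v : H) :
    J (U t v) = E ((-t : ℝ) : ℂ) (V t (J v)) := by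
  rw [hB.V_J, ← ContinuousLinearMap.mul_apply, ← hB.E_add, Complex.ofReal_neg,
    neg_add_cancel, hB.E_J]

theorem norm_E0 (hB : BoxP U κ V J E T δ) : ‖E 0‖ ≤ 1 := by
  have h1 : star (E 0) = E 0 := by
    rw [hB.E_star]; simp
  have h2 : E 0 * E 0 = E 0 := by
    rw [← hB.E_add, add_zero]
  have h3 : ‖star (E 0) * E 0‖ = ‖E 0‖ * ‖E 0‖ := CStarRing.norm_star_mul_self
  rw [h1, h2] at h3
  by_contra h
  push Not at h
  nlinarith

theorem norm_E_real (hB : BoxP U κ V J E T δ) (t : ℝ) : ‖E (t : ℂ)‖ ≤ 1 := by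
  have h3 : ‖star (E (t : ℂ)) * E (t : ℂ)‖ = ‖E (t : ℂ)‖ * ‖E (t : ℂ)‖ :=
    CStarRing.norm_star_mul_self
  rw [star_E_real hB, ← hB.E_add, Complex.ofReal_neg, neg_add_cancel] at h3
  have h4 := norm_E0 hB
  by_contra h
  push Not at h
  nlinarith

theorem norm_J (hB : BoxP U κ V J E T δ) (v : H) : ‖J v‖ = ‖v‖ := by
  have h : ⟪J v, J v⟫_ℂ = ⟪v, v⟫_ℂ := by
    rw [← ContinuousLinearMap.adjoint_inner_left, hB.J_iso]
  rw [inner_self_eq_norm_sq_to_K, inner_self_eq_norm_sq_to_K] at h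
  have h2 : ‖J v‖ ^ 2 = ‖v‖ ^ 2 := by exact_mod_cast h
  exact (pow_left_inj₀ (norm_nonneg _) (norm_nonneg _) two_ne_zero).1 h2

theorem norm_Jadj (hB : BoxP U κ V J E T δ) (v : K) :
    ‖ContinuousLinearMap.adjoint J v‖ ≤ ‖v‖ := by
  have h1 : ‖J‖ ≤ 1 := by
    refine ContinuousLinearMap.opNorm_le_bound _ zero_le_one (fun w => ?_)
    rw [norm_J hB, one_mul]
  have h2 : ‖ContinuousLinearMap.adjoint J‖ = ‖J‖ := LinearIsometryEquiv.norm_map _ _
  calc ‖ContinuousLinearMap.adjoint J v‖ ≤ ‖ContinuousLinearMap.adjoint J‖ * ‖v‖ :=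
        ContinuousLinearMap.le_opNorm _ _
    _ ≤ 1 * ‖v‖ := by
        rw [h2]; exact mul_le_mul_of_nonneg_right h1 (norm_nonneg _)
    _ = ‖v‖ := one_mul _

theorem U_Jadj {M : VonNeumannAlgebra H} {ξ : H} (hM : IsModular M ξ U)
    (hB : BoxP U κ V J E T δ) (t : ℝ) (v : K) :
    U t (ContinuousLinearMap.adjoint J v) =
      ContinuousLinearMap.adjoint J (V t (E ((-t : ℝ) : ℂ) v)) := by
  refine ext_inner_left ℂ (fun w => ?_)
  rw [star_inner_right, hM.star_eq, ContinuousLinearMap.adjoint_inner_right, J_U hB,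
    ContinuousLinearMap.adjoint_inner_right, star_inner_right (V t), hB.V_star,
    star_inner_right (E ((-t : ℝ) : ℂ)), star_E_real hB]

theorem Jadj_E0 (hB : BoxP U κ V J E T δ) (v : K) :
    ContinuousLinearMap.adjoint J (E 0 v) = ContinuousLinearMap.adjoint J v := by
  refine ext_inner_left ℂ (fun w => ?_)
  have h1 : star (E 0) = E 0 := by
    rw [hB.E_star]; simp
  rw [ContinuousLinearMap.adjoint_inner_right, star_inner_right (E 0), h1, hB.E_J,
    ContinuousLinearMap.adjoint_inner_right]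

theorem y_Jadj (hB : BoxP U κ V J E T δ) (y : H →L[ℂ] H) (v : K) :
    y (ContinuousLinearMap.adjoint J v) = ContinuousLinearMap.adjoint J (κ y v) := by
  refine ext_inner_left ℂ (fun w => ?_)
  rw [star_inner_right, ContinuousLinearMap.adjoint_inner_right, ← hB.κ_J, map_star,
    ← star_inner_right (κ y), ContinuousLinearMap.adjoint_inner_right]

theorem strip (hB : BoxP U κ V J E T δ) (R : ℝ) :
    ∃ C : ℝ, ∀ z : ℂ, |z.im| ≤ R → ‖E z‖ ≤ C := by
  have hc : Continuous fun y : ℝ => ‖E ((y : ℂ) * I)‖ := by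
    refine (hB.E_diff.continuous.comp ?_).norm
    exact (Complex.continuous_ofReal.mul continuous_const)
  obtain ⟨C, hC⟩ := (isCompact_Icc : IsCompact (Set.Icc (-R) R)).bddAbove_image hc.continuousOn
  refine ⟨C, fun z hz => ?_⟩
  have h1 : E z = E (z.re : ℂ) * E ((z.im : ℂ) * I) := by
    rw [← hB.E_add, Complex.re_add_im]
  have h2 : ‖E ((z.im : ℂ) * I)‖ ≤ C := hC ⟨z.im, ⟨(abs_le.1 hz).1, (abs_le.1 hz).2⟩, rfl⟩
  calc ‖E z‖ ≤ ‖E (z.re : ℂ)‖ * ‖E ((z.im : ℂ) * I)‖ := by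
        rw [h1]; exact norm_mul_le _ _
    _ ≤ 1 * ‖E ((z.im : ℂ) * I)‖ :=
        mul_le_mul_of_nonneg_right (norm_E_real hB _) (norm_nonneg _)
    _ ≤ C := by rw [one_mul]; exact h2

end

theorem b1 : S_B1 := by
  intro H K _ _ _ _ _ _ M ξ U κ V J E T δ hM hB
  refine ⟨fun t => ?_, fun t v => U_Jadj hM hB t v, fun t v => J_U hB t v,
    fun t => norm_E_real hB t, fun v => norm_J hB v, fun v => norm_Jadj hB v,
    fun v => Jadj_E0 hB v, fun y v => y_Jadj hB y v, fun R => strip hB R⟩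
  rw [hB.V_J, hM.fix]

end Pool.Agent.W398.CB.B1
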